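import Pool.Graph.R_seed8.Y881.PG.Four
import Pool.Graph.R_seed8.Y881.SP.CountGen

/-! # Few solutions of `u / t ∈ Z` and `u + t ∈ Z` if `u` runs through a set which is nearly invariant
under affine maps -/

set_option autoImplicit false

namespace Pool.Agent.H424.AF

open Finset Pool.Agent.Y881.PG Pool.Agent.Y881.SP Pool.Agent.H435R3.Paley

/-- the images of the elements of `U` under the affine maps `x ↦ σ.1 * x + σ.2`, `σ ∈ S` -/
def img {p : ℕ} (S : Finset (ZMod p × ZMod p)) (U : Finset (ZMod p)) : Finset (ZMod p) :=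
  (S ×ˢ U).image fun q => q.1.1 * q.2 + q.1.2

/-- the number of triples -/
theorem triples {p : ℕ} [Fact p.Prime] (S : Finset (ZMod p × ZMod p)) (hS0 : ∀ σ ∈ S, σ.1 ≠ 0)
    (U : Finset (ZMod p)) {κ : Type} (T : Finset κ) (P : ZMod p → κ → Prop)
    [∀ x y, Decidable (P x y)] :
    S.card * ((U ×ˢ T).filter fun q => P q.1 q.2).card ≤
      (((img S U) ×ˢ (S ×ˢ T)).filter fun q => P ((q.1 - q.2.1.2) / q.2.1.1) q.2.2).card := by
  rw [← card_product]
  refine card_le_card_of_injOn (fun q => (q.1.1 * q.2.1 + q.1.2, (q.1, q.2.2))) ?_ ?_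
  · intro q hq
    rw [mem_coe, mem_product, mem_filter, mem_product] at hq
    obtain ⟨h1, ⟨h2, h3⟩, h4⟩ := hq
    rw [mem_coe, mem_filter, mem_product, mem_product]
    refine ⟨⟨mem_image.2 ⟨(q.1, q.2.1), mem_product.2 ⟨h1, h2⟩, rfl⟩, h1, h3⟩, ?_⟩
    simp only
    rw [add_sub_cancel_right, mul_div_cancel_left₀ _ (hS0 _ h1)]
    exact h4
  · intro q hq q' hq' h
    rw [mem_coe, mem_product, mem_filter, mem_product] at hq hq'
    simp only [Prod.mk.injEq] at h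
    obtain ⟨g1, g2, g3⟩ := h
    rw [g2] at g1
    have g4 := mul_left_cancel₀ (hS0 _ hq'.1) (add_right_cancel g1)
    exact Prod.ext g2 (Prod.ext g4 g3)

open Classical in
/-- the case of many maps with the same linear part -/
theorem count_same (ε : ℝ) (hε : 0 < ε) : ∃ c : ℝ, 0 < c ∧ ∃ p₀ : ℕ, ∀ (p : ℕ) [Fact p.Prime],
    p₀ ≤ p → ∀ (U T Z : Finset (ZMod p)) (S : Finset (ZMod p × ZMod p)) (l : ZMod p),
      (0 : ZMod p) ∉ T → l ≠ 0 → (∀ σ ∈ S, σ.1 = l) → (p : ℝ) ^ ε ≤ S.card →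
      (p : ℝ) ^ ε ≤ T.card → (p : ℝ) ^ (1 / 2 - c) ≤ U.card →
      (Z.card : ℝ) ≤ (p : ℝ) ^ (1 / 2 + c) → ((img S U).card : ℝ) ≤ (p : ℝ) ^ c * U.card →
      (((U ×ˢ T).filter fun q => q.1 / q.2 ∈ Z).card : ℝ) ≤ (p : ℝ) ^ (-c) * (U.card * T.card) := by
  obtain ⟨c₁, hc₁, p₀, hcount⟩ := count_half ε hε
  refine ⟨c₁ / 2, by positivity, p₀, fun p _ hp U T Z S l hT0 hl hSl hS hT hU hZ hSU => ?_⟩
  have hp1 : (1 : ℝ) ≤ p := by exact_mod_cast (Fact.out : p.Prime).one_le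
  have hp0 : (0 : ℝ) < p := by linarith
  have hmono : ∀ x y : ℝ, x ≤ y → (p : ℝ) ^ x ≤ (p : ℝ) ^ y := fun x y h =>
    Real.rpow_le_rpow_of_exponent_le hp1 h
  have hSc : (0 : ℝ) < S.card := lt_of_lt_of_le (by positivity) hS
  have hUc : (0 : ℝ) < U.card := lt_of_lt_of_le (by positivity) hU
  have hS0 : ∀ σ ∈ S, σ.1 ≠ 0 := fun σ hσ => by rw [hSl σ hσ]; exact hl
  have hne : S.Nonempty := by
    rw [← card_pos]
    exact_mod_cast hSc
  have hUimg : (U.card : ℝ) ≤ (img S U).card := by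
    obtain ⟨σ, hσ⟩ := hne
    have h1 : U.card ≤ (img S U).card := by
      refine card_le_card_of_injOn (fun u => σ.1 * u + σ.2) ?_ ?_
      · intro u hu
        exact mem_coe.2 (mem_image.2 ⟨(σ, u), mem_product.2 ⟨hσ, hu⟩, rfl⟩)
      · intro u _ u' _ h
        exact mul_left_cancel₀ (hS0 σ hσ) (add_right_cancel h)
    exact_mod_cast h1
  set A : Finset (ZMod p) := S.image fun σ => -σ.2 with hA
  have hAc : A.card = S.card := by
    rw [hA]
    refine card_image_of_injOn ?_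
    intro σ hσ σ' hσ' h
    have h1 : -σ.2 = -σ'.2 := h
    exact Prod.ext ((hSl σ hσ).trans (hSl σ' hσ').symm) (neg_inj.1 h1)
  set T' : Finset (ZMod p) := T.image fun t => l * t with hT'
  have hT'c : T'.card = T.card := card_image_of_injective _ fun a b h => mul_left_cancel₀ hl h
  have hT'0 : (0 : ZMod p) ∉ T' := by
    intro h
    obtain ⟨t, ht, h1⟩ := mem_image.1 h
    rcases mul_eq_zero.1 h1 with h2 | h2
    · exact hl h2
    · exact hT0 (h2 ▸ ht)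
  have hcnt := hcount p hp A T' (img S U) Z hT'0 (by rw [hAc]; exact hS) (by rw [hT'c]; exact hT)
    ((hmono _ _ (by linarith)).trans (hU.trans hUimg))
    (hZ.trans (hmono _ _ (by linarith)))
  have htr := triples S hS0 U T fun u t => u / t ∈ Z
  have hle : (((img S U) ×ˢ (S ×ˢ T)).filter
      fun q => (q.1 - q.2.1.2) / q.2.1.1 / q.2.2 ∈ Z).card ≤
      (((img S U) ×ˢ (A ×ˢ T')).filter fun q => (q.2.1 + q.1) / q.2.2 ∈ Z).card := by
    refine card_le_card_of_injOn (fun q => (q.1, (-q.2.1.2, l * q.2.2))) ?_ ?_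
    · intro q hq
      rw [mem_coe, mem_filter, mem_product, mem_product] at hq
      obtain ⟨⟨h1, h2, h3⟩, h4⟩ := hq
      rw [mem_coe, mem_filter, mem_product, mem_product]
      refine ⟨⟨h1, mem_image.2 ⟨q.2.1, h2, rfl⟩, mem_image.2 ⟨q.2.2, h3, rfl⟩⟩, ?_⟩
      simp only
      rw [hSl _ h2, div_div] at h4
      rw [neg_add_eq_sub]
      exact h4
    · intro q hq q' hq' h
      rw [mem_coe, mem_filter, mem_product, mem_product] at hq hq'
      simp only [Prod.mk.injEq, neg_inj] at h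
      obtain ⟨g1, g2, g3⟩ := h
      refine Prod.ext g1 (Prod.ext (Prod.ext ?_ g2) (mul_left_cancel₀ hl g3))
      exact (hSl _ hq.1.2.1).trans (hSl _ hq'.1.2.1).symm
  have hsum : ∑ s ∈ img S U, (((A ×ˢ T').filter fun r => (r.1 + s) / r.2 ∈ Z).card : ℝ) =
      ((((img S U) ×ˢ (A ×ˢ T')).filter fun q => (q.2.1 + q.1) / q.2.2 ∈ Z).card : ℝ) := by
    simp only [card_filter, Nat.cast_sum]
    rw [Finset.sum_product (img S U)]
  rw [hsum] at hcnt
  have h1 : (S.card : ℝ) * ((U ×ˢ T).filter fun q => q.1 / q.2 ∈ Z).card ≤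
      (p : ℝ) ^ (-c₁) * (A.card * (img S U).card * T'.card) := by
    refine le_trans ?_ hcnt
    exact_mod_cast htr.trans hle
  rw [hAc, hT'c] at h1
  have h2 : (S.card : ℝ) * ((U ×ˢ T).filter fun q => q.1 / q.2 ∈ Z).card ≤
      S.card * ((p : ℝ) ^ (-(c₁ / 2)) * (U.card * T.card)) := by
    calc _ ≤ (p : ℝ) ^ (-c₁) * (S.card * (img S U).card * T.card) := h1
      _ ≤ (p : ℝ) ^ (-c₁) * (S.card * ((p : ℝ) ^ (c₁ / 2) * U.card) * T.card) := by gcongr
      _ = S.card * (((p : ℝ) ^ (-c₁) * (p : ℝ) ^ (c₁ / 2)) * (U.card * T.card)) := by ring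
      _ = _ := by
          rw [← Real.rpow_add hp0]
          congr 4
          ring
  exact le_of_mul_le_mul_left h2 hSc

open Classical in
/-- the case of maps with different linear parts -/
theorem count_different (ε : ℝ) (hε : 0 < ε) : ∃ c : ℝ, 0 < c ∧ ∃ p₀ : ℕ, ∀ (p : ℕ) [Fact p.Prime],
    p₀ ≤ p → ∀ (U T Z : Finset (ZMod p)) (S : Finset (ZMod p × ZMod p)),
      (0 : ZMod p) ∉ T → S.Nonempty → (∀ σ ∈ S, σ.1 ≠ 0) →
      (∀ x, ((S.filter fun σ => σ.1 = x).card : ℝ) ≤ (p : ℝ) ^ (-ε) * S.card) →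
      (∀ x, ((S.filter fun σ => σ.2 = x).card : ℝ) ≤ (p : ℝ) ^ (-ε) * S.card) →
      (p : ℝ) ^ ε ≤ T.card → (p : ℝ) ^ (1 / 2 - c) ≤ U.card →
      (Z.card : ℝ) ≤ (p : ℝ) ^ (1 / 2 + c) → ((img S U).card : ℝ) ≤ (p : ℝ) ^ c * U.card →
      (((U ×ˢ T).filter fun q => q.1 / q.2 ∈ Z).card : ℝ) ≤ (p : ℝ) ^ (-c) * (U.card * T.card) := by
  obtain ⟨e, he⟩ : ∃ e : ℝ, e = min (ε / 2) (1 / 4) := ⟨_, rfl⟩
  have he0 : 0 < e := by rw [he]; positivity
  have he1 : e ≤ ε / 2 := by rw [he]; exact min_le_left _ _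
  have he2 : e ≤ 1 / 4 := by rw [he]; exact min_le_right _ _
  obtain ⟨c₂, hc₂, p₁, hcount⟩ := count_gen e he0
  obtain ⟨c, hc⟩ : ∃ c : ℝ, c = min (c₂ / 8) (min (ε / 8) (1 / 8)) := ⟨_, rfl⟩
  have hc0 : 0 < c := by rw [hc]; positivity
  have hc1 : c ≤ c₂ / 8 := by rw [hc]; exact min_le_left _ _
  have hc2 : c ≤ ε / 8 := by rw [hc]; exact (min_le_right _ _).trans (min_le_left _ _)
  have hc3 : c ≤ 1 / 8 := by rw [hc]; exact (min_le_right _ _).trans (min_le_right _ _)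
  obtain ⟨p₂, hp₂2, hp₂⟩ := exists_large 3 c hc0
  refine ⟨c, hc0, p₁ + p₂, fun p _ hp U T Z S hT0 hSne hS0 hSl hSm hT hU hZ hSU => ?_⟩
  have hp1 : (1 : ℝ) ≤ p := by exact_mod_cast (Fact.out : p.Prime).one_le
  have hp0 : (0 : ℝ) < p := by linarith
  have hmono : ∀ x y : ℝ, x ≤ y → (p : ℝ) ^ x ≤ (p : ℝ) ^ y := fun x y h =>
    Real.rpow_le_rpow_of_exponent_le hp1 h
  have h3 : 3 ≤ (p : ℝ) ^ c := hp₂ p (by omega)
  have hSc : (0 : ℝ) < S.card := by exact_mod_cast hSne.card_pos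
  have hUc : (0 : ℝ) < U.card := lt_of_lt_of_le (by positivity) hU
  have hTc : (0 : ℝ) < T.card := lt_of_lt_of_le (by positivity) hT
  by_contra hcon
  have hcon := not_le.1 hcon
  set W := img S U with hW
  -- the number of solutions with the maps
  set N : ZMod p × ZMod p → ℝ := fun q =>
    ((S.filter fun σ => (q.1 - σ.2) / σ.1 / q.2 ∈ Z).card : ℝ) with hN
  have hN0 : ∀ q, 0 ≤ N q := fun q => Nat.cast_nonneg _
  have hsumN : (p : ℝ) ^ (-c) * (U.card * T.card) * S.card ≤ ∑ q ∈ W ×ˢ T, N q := by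
    have htr := triples S hS0 U T fun u t => u / t ∈ Z
    have h1 : ∑ q ∈ W ×ˢ T, N q = (((W ×ˢ (S ×ˢ T)).filter
        fun q => (q.1 - q.2.1.2) / q.2.1.1 / q.2.2 ∈ Z).card : ℝ) := by
      simp only [hN, card_filter, Nat.cast_sum]
      rw [Finset.sum_product, Finset.sum_product]
      refine sum_congr rfl fun x _ => ?_
      rw [Finset.sum_product_right]
    rw [h1]
    have h2 : (S.card : ℝ) * ((U ×ˢ T).filter fun q => q.1 / q.2 ∈ Z).card ≤
        (((W ×ˢ (S ×ˢ T)).filter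
        fun q => (q.1 - q.2.1.2) / q.2.1.1 / q.2.2 ∈ Z).card : ℝ) := by
      exact_mod_cast htr
    refine le_trans ?_ h2
    rw [mul_comm]
    exact mul_le_mul_of_nonneg_left hcon.le hSc.le
  have hWc : (W.card : ℝ) ≤ (p : ℝ) ^ c * U.card := hSU
  have hcs : (∑ q ∈ W ×ˢ T, N q) ^ 2 ≤ ((W.card : ℝ) * T.card) * ∑ q ∈ W ×ˢ T, N q ^ 2 := by
    have h1 := sq_sum_le_card_mul_sum_sq (s := W ×ˢ T) (f := N)
    rw [card_product] at h1
    push_cast at h1
    exact h1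
  -- pairs of maps
  set I : Finset ((ZMod p × ZMod p) × (ZMod p × ZMod p)) :=
    (S ×ˢ S).filter fun i => i.1.2 ≠ i.2.2 with hI
  have hIle : (I.card : ℝ) ≤ (S.card : ℝ) ^ 2 := by
    have h1 : I.card ≤ S.card * S.card := by
      rw [← card_product]
      exact card_filter_le _ _
    rw [sq]
    exact_mod_cast h1
  have hcompl : ((((S ×ˢ S).filter fun i => ¬ (i.1.2 ≠ i.2.2)).card : ℕ) : ℝ) ≤
      (p : ℝ) ^ (-ε) * (S.card : ℝ) ^ 2 := by
    have h1 : ((((S ×ˢ S).filter fun i => ¬ (i.1.2 ≠ i.2.2)).card : ℕ) : ℝ) =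
        ∑ σ ∈ S, ((S.filter fun σ' => σ'.2 = σ.2).card : ℝ) := by
      simp only [card_filter, Nat.cast_sum]
      rw [Finset.sum_product]
      refine sum_congr rfl fun σ _ => sum_congr rfl fun σ' _ => ?_
      by_cases h2 : σ.2 = σ'.2
      · simp [h2]
      · simp [h2, Ne.symm h2]
    rw [h1]
    refine (sum_le_card_nsmul _ _ _ fun σ _ => hSm σ.2).trans (le_of_eq ?_)
    rw [nsmul_eq_mul]
    ring
  have h9 : (3 : ℝ) * 3 ≤ (p : ℝ) ^ (2 * c) := by
    have e1 : (p : ℝ) ^ (2 * c) = (p : ℝ) ^ c * (p : ℝ) ^ c := by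
      rw [← Real.rpow_add hp0]
      congr 1
      ring
    rw [e1]
    nlinarith
  have hIge : (S.card : ℝ) ^ 2 ≤ 2 * I.card := by
    have h1 : (I.card : ℝ) + ((((S ×ˢ S).filter fun i => ¬ (i.1.2 ≠ i.2.2)).card : ℕ) : ℝ) =
        (S.card : ℝ) ^ 2 := by
      have h2 := Finset.card_filter_add_card_filter_not (s := S ×ˢ S)
        (fun i => i.1.2 ≠ i.2.2)
      rw [card_product] at h2
      rw [sq]
      exact_mod_cast h2
    have h2 : (p : ℝ) ^ (-ε) ≤ 1 / 2 := by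
      rw [Real.rpow_neg hp0.le, inv_le_comm₀ (by positivity) (by norm_num)]
      have h3' : (p : ℝ) ^ c ≤ (p : ℝ) ^ ε := hmono _ _ (by linarith)
      norm_num
      linarith
    nlinarith
  have hpairs : ∑ q ∈ W ×ˢ T, N q ^ 2 ≤
      ∑ i ∈ I, (((W ×ˢ T).filter fun q => (q.1 - i.1.2) / i.1.1 / q.2 ∈ Z ∧
        (q.1 - i.2.2) / i.2.1 / q.2 ∈ Z).card : ℝ) +
      ((W.card : ℝ) * T.card) * ((p : ℝ) ^ (-ε) * (S.card : ℝ) ^ 2) := by
    have h1 : ∀ q, N q ^ 2 = ∑ i ∈ S ×ˢ S, (if (q.1 - i.1.2) / i.1.1 / q.2 ∈ Z ∧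
        (q.1 - i.2.2) / i.2.1 / q.2 ∈ Z then (1 : ℝ) else 0) := by
      intro q
      rw [sq, hN]
      simp only
      rw [card_filter]
      push_cast
      rw [sum_mul_sum, Finset.sum_product]
      refine sum_congr rfl fun σ _ => sum_congr rfl fun σ' _ => ?_
      by_cases h2 : (q.1 - σ.2) / σ.1 / q.2 ∈ Z
      · by_cases h3 : (q.1 - σ'.2) / σ'.1 / q.2 ∈ Z
        · simp [h2, h3]
        · simp [h3]
      · simp [h2]
    have h2 : ∑ q ∈ W ×ˢ T, N q ^ 2 = ∑ i ∈ S ×ˢ S, (((W ×ˢ T).filter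
        fun q => (q.1 - i.1.2) / i.1.1 / q.2 ∈ Z ∧
        (q.1 - i.2.2) / i.2.1 / q.2 ∈ Z).card : ℝ) := by
      rw [sum_congr rfl fun q _ => h1 q, sum_comm]
      refine sum_congr rfl fun i _ => ?_
      rw [card_filter]
      push_cast
      rfl
    rw [h2, ← Finset.sum_filter_add_sum_filter_not (S ×ˢ S) (fun i => i.1.2 ≠ i.2.2)]
    refine add_le_add le_rfl ?_
    have h4 : ∀ i ∈ (S ×ˢ S).filter (fun i => ¬ (i.1.2 ≠ i.2.2)), (((W ×ˢ T).filter
        fun q => (q.1 - i.1.2) / i.1.1 / q.2 ∈ Z ∧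
        (q.1 - i.2.2) / i.2.1 / q.2 ∈ Z).card : ℝ) ≤ (W.card : ℝ) * T.card := by
      intro i _
      have h5 : ((W ×ˢ T).filter
        fun q => (q.1 - i.1.2) / i.1.1 / q.2 ∈ Z ∧
        (q.1 - i.2.2) / i.2.1 / q.2 ∈ Z).card ≤ W.card * T.card := by
        rw [← card_product]
        exact card_filter_le _ _
      exact_mod_cast h5
    refine (sum_le_card_nsmul _ _ _ h4).trans ?_
    rw [nsmul_eq_mul, mul_comm]
    exact mul_le_mul_of_nonneg_left hcompl (by positivity)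
  -- the counting theorem
  set d : (ZMod p × ZMod p) × (ZMod p × ZMod p) → ZMod p := fun i => i.2.1 / i.1.1 with hd
  set A : (ZMod p × ZMod p) × (ZMod p × ZMod p) → Finset (ZMod p) := fun i =>
    T.image fun t => (i.1.2 - i.2.2) / (i.1.1 * t) with hA
  have hImem : ∀ i ∈ I, i.1 ∈ S ∧ i.2 ∈ S ∧ i.1.2 ≠ i.2.2 := by
    intro i hi
    rw [hI, mem_filter, mem_product] at hi
    exact ⟨hi.1.1, hi.1.2, hi.2⟩
  have hAinj : ∀ i ∈ I, Set.InjOn (fun t => (i.1.2 - i.2.2) / (i.1.1 * t)) (T : Set (ZMod p)) := by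
    intro i hi t ht t' ht' h
    obtain ⟨g1, g2, g3⟩ := hImem i hi
    have n1 := hS0 _ g1
    have n2 : t ≠ 0 := fun h => hT0 (h ▸ ht)
    have n3 : t' ≠ 0 := fun h => hT0 (h ▸ ht')
    have n4 : i.1.2 - i.2.2 ≠ 0 := sub_ne_zero.2 g3
    simp only at h
    rw [div_eq_div_iff (mul_ne_zero n1 n2) (mul_ne_zero n1 n3)] at h
    exact (mul_left_cancel₀ n1 (mul_left_cancel₀ n4 h)).symm
  have hAc : ∀ i ∈ I, (A i).card = T.card := fun i hi => card_image_of_injOn (hAinj i hi)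
  have hd0 : ∀ i ∈ I, d i ≠ 0 := by
    intro i hi
    obtain ⟨g1, g2, g3⟩ := hImem i hi
    exact div_ne_zero (hS0 _ g2) (hS0 _ g1)
  have hdc : ∀ x, ((I.filter fun i => d i = x).card : ℝ) ≤ (p : ℝ) ^ (-e) * I.card := by
    intro x
    have h1 : ((I.filter fun i => d i = x).card : ℝ) ≤ (p : ℝ) ^ (-ε) * (S.card : ℝ) ^ 2 := by
      have h2 : (I.filter fun i => d i = x).card ≤
          ∑ σ ∈ S, (S.filter fun σ' => σ'.1 = x * σ.1).card := by
        have h3 : ∑ σ ∈ S, (S.filter fun σ' => σ'.1 = x * σ.1).card =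
            ((S ×ˢ S).filter fun i => i.2.1 = x * i.1.1).card := by
          simp only [card_filter]
          rw [Finset.sum_product]
        rw [h3]
        refine card_le_card fun i hi => ?_
        rw [mem_filter] at hi
        obtain ⟨g1, g2, g3⟩ := hImem i hi.1
        rw [mem_filter, mem_product]
        refine ⟨⟨g1, g2⟩, ?_⟩
        have h4 := hi.2
        rw [hd] at h4
        simp only at h4
        rwa [div_eq_iff (hS0 _ g1)] at h4
      have h3 : (∑ σ ∈ S, ((S.filter fun σ' => σ'.1 = x * σ.1).card : ℝ)) ≤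
          (p : ℝ) ^ (-ε) * (S.card : ℝ) ^ 2 := by
        refine (sum_le_card_nsmul _ _ _ fun σ _ => hSl (x * σ.1)).trans (le_of_eq ?_)
        rw [nsmul_eq_mul]
        ring
      refine le_trans ?_ h3
      exact_mod_cast h2
    refine h1.trans ?_
    calc (p : ℝ) ^ (-ε) * (S.card : ℝ) ^ 2 ≤ (p : ℝ) ^ (-ε) * (2 * I.card) :=
          mul_le_mul_of_nonneg_left hIge (by positivity)
      _ ≤ (p : ℝ) ^ (-ε) * ((p : ℝ) ^ c * I.card) := by
          have h5 : (2 : ℝ) ≤ (p : ℝ) ^ c := by linarith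
          gcongr
      _ = (p : ℝ) ^ (-ε + c) * I.card := by
          rw [← mul_assoc, ← Real.rpow_add hp0]
      _ ≤ (p : ℝ) ^ (-e) * I.card :=
          mul_le_mul_of_nonneg_right (hmono _ _ (by linarith)) (Nat.cast_nonneg _)
  have hcnt := hcount p (by omega) I d A Z Z hd0 hdc
    (fun i hi => by rw [hAc i hi]; exact (hmono _ _ (by linarith)).trans hT)
    (hZ.trans (hmono _ _ (by linarith)))
    (le_mul_of_one_le_left (Nat.cast_nonneg _) (Real.one_le_rpow hp1 hc₂.le))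
  have hone : ∀ i ∈ I, (((W ×ˢ T).filter fun q => (q.1 - i.1.2) / i.1.1 / q.2 ∈ Z ∧
        (q.1 - i.2.2) / i.2.1 / q.2 ∈ Z).card : ℝ) ≤
      T.card * ∑ z ∈ Z, prop (A i) Z (d i) z := by
    intro i hi
    obtain ⟨g1, g2, g3⟩ := hImem i hi
    have n1 := hS0 _ g1
    have n2 := hS0 _ g2
    have h1 : (T.card : ℝ) * ∑ z ∈ Z, prop (A i) Z (d i) z =
        ∑ z ∈ Z, (((A i).filter fun a => (a + z) / d i ∈ Z).card : ℝ) := by
      rw [mul_sum]
      refine sum_congr rfl fun z _ => ?_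
      unfold prop
      rw [hAc i hi]
      field_simp
    rw [h1]
    have h2 : ∑ z ∈ Z, (((A i).filter fun a => (a + z) / d i ∈ Z).card : ℝ) =
        (((Z ×ˢ (A i)).filter fun q => (q.2 + q.1) / d i ∈ Z).card : ℝ) := by
      simp only [card_filter, Nat.cast_sum]
      rw [Finset.sum_product]
    rw [h2]
    have h4 : ((W ×ˢ T).filter fun q => (q.1 - i.1.2) / i.1.1 / q.2 ∈ Z ∧
        (q.1 - i.2.2) / i.2.1 / q.2 ∈ Z).card ≤
        ((Z ×ˢ (A i)).filter fun q => (q.2 + q.1) / d i ∈ Z).card := by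
      refine card_le_card_of_injOn (fun q => ((q.1 - i.1.2) / i.1.1 / q.2,
        (i.1.2 - i.2.2) / (i.1.1 * q.2))) ?_ ?_
      · intro q hq
        rw [mem_coe, mem_filter, mem_product] at hq
        obtain ⟨⟨k1, k2⟩, k3, k4⟩ := hq
        have n3 : q.2 ≠ 0 := fun h => hT0 (h ▸ k2)
        rw [mem_coe, mem_filter, mem_product]
        refine ⟨⟨k3, mem_image.2 ⟨q.2, k2, rfl⟩⟩, ?_⟩
        simp only
        have e1 : ((i.1.2 - i.2.2) / (i.1.1 * q.2) + (q.1 - i.1.2) / i.1.1 / q.2) / d i =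
            (q.1 - i.2.2) / i.2.1 / q.2 := by
          rw [hd]
          simp only
          field_simp
          ring
        rw [e1]
        exact k4
      · intro q hq q' hq' h
        rw [mem_coe, mem_filter, mem_product] at hq hq'
        simp only [Prod.mk.injEq] at h
        obtain ⟨k1, k2⟩ := h
        have k3 : q.2 = q'.2 := hAinj i hi hq.1.2 hq'.1.2 k2
        have n3 : q.2 ≠ 0 := fun h => hT0 (h ▸ hq.1.2)
        rw [← k3] at k1
        have k4 := (div_left_inj' n1).1 ((div_left_inj' n3).1 k1)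
        exact Prod.ext (sub_left_injective k4) k3
    exact_mod_cast h4
  have hfin : ∑ i ∈ I, (((W ×ˢ T).filter fun q => (q.1 - i.1.2) / i.1.1 / q.2 ∈ Z ∧
        (q.1 - i.2.2) / i.2.1 / q.2 ∈ Z).card : ℝ) ≤
      T.card * ((p : ℝ) ^ (-c₂) * (Z.card * (S.card : ℝ) ^ 2)) := by
    refine (sum_le_sum hone).trans ?_
    rw [← mul_sum]
    refine mul_le_mul_of_nonneg_left ?_ (Nat.cast_nonneg _)
    refine hcnt.trans ?_
    gcongr
  -- numbers
  set u : ℝ := (U.card : ℝ) with hu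
  set s : ℝ := (S.card : ℝ) with hs
  set t : ℝ := (T.card : ℝ) with ht
  have hW0 : (0 : ℝ) ≤ W.card := Nat.cast_nonneg _
  have g1 : ((p : ℝ) ^ (-c) * (u * t) * s) ^ 2 ≤ (((p : ℝ) ^ c * u) * t) *
      (t * ((p : ℝ) ^ (-c₂) * (Z.card * s ^ 2)) + (((p : ℝ) ^ c * u) * t) * ((p : ℝ) ^ (-ε) * s ^ 2)) := by
    have k1 : ((p : ℝ) ^ (-c) * (u * t) * s) ^ 2 ≤ (∑ q ∈ W ×ˢ T, N q) ^ 2 :=
      pow_le_pow_left₀ (by positivity) hsumN 2
    refine k1.trans (hcs.trans ?_)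
    have k2 : ∑ q ∈ W ×ˢ T, N q ^ 2 ≤ t * ((p : ℝ) ^ (-c₂) * (Z.card * s ^ 2)) +
        (((p : ℝ) ^ c * u) * t) * ((p : ℝ) ^ (-ε) * s ^ 2) := by
      refine hpairs.trans (add_le_add hfin ?_)
      gcongr
    have k3 : (0 : ℝ) ≤ ∑ q ∈ W ×ˢ T, N q ^ 2 := sum_nonneg fun q _ => by positivity
    exact mul_le_mul (mul_le_mul_of_nonneg_right hWc hTc.le) k2 k3 (by positivity)
  have g2 : (p : ℝ) ^ (-(3 * c)) * u ≤ (p : ℝ) ^ (-c₂) * Z.card + (p : ℝ) ^ (c - ε) * u := by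
    have k1 : ((p : ℝ) ^ (-c) * (u * t) * s) ^ 2 =
        ((p : ℝ) ^ c * u * t * t * s ^ 2) * ((p : ℝ) ^ (-(3 * c)) * u) := by
      have k2 : ((p : ℝ) ^ (-c)) ^ 2 = (p : ℝ) ^ c * (p : ℝ) ^ (-(3 * c)) := by
        rw [← Real.rpow_natCast, ← Real.rpow_mul hp0.le, ← Real.rpow_add hp0]
        congr 1
        push_cast
        ring
      rw [mul_pow, mul_pow, k2]
      ring
    have k3 : (((p : ℝ) ^ c * u) * t) * (t * ((p : ℝ) ^ (-c₂) * (Z.card * s ^ 2)) +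
        (((p : ℝ) ^ c * u) * t) * ((p : ℝ) ^ (-ε) * s ^ 2)) =
        ((p : ℝ) ^ c * u * t * t * s ^ 2) * ((p : ℝ) ^ (-c₂) * Z.card + (p : ℝ) ^ (c - ε) * u) := by
      have k4 : (p : ℝ) ^ (c - ε) = (p : ℝ) ^ c * (p : ℝ) ^ (-ε) := by
        rw [← Real.rpow_add hp0]
        congr 1
      rw [k4]
      ring
    rw [k1, k3] at g1
    exact le_of_mul_le_mul_left g1 (by positivity)
  have g3 : (p : ℝ) ^ (-c₂) * Z.card ≤ (p : ℝ) ^ (-(6 * c)) * u := by
    calc (p : ℝ) ^ (-c₂) * Z.card ≤ (p : ℝ) ^ (-c₂) * (p : ℝ) ^ (1 / 2 + c) :=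
          mul_le_mul_of_nonneg_left hZ (by positivity)
      _ = (p : ℝ) ^ (-c₂ + 2 * c) * (p : ℝ) ^ (1 / 2 - c) := by
          rw [← Real.rpow_add hp0, ← Real.rpow_add hp0]
          congr 1
          ring
      _ ≤ (p : ℝ) ^ (-(6 * c)) * u :=
          mul_le_mul (hmono _ _ (by linarith)) hU (by positivity) (by positivity)
  have g4 : (p : ℝ) ^ (c - ε) * u ≤ (p : ℝ) ^ (-(6 * c)) * u :=
    mul_le_mul_of_nonneg_right (hmono _ _ (by linarith)) hUc.le
  have g5 : (p : ℝ) ^ (-(3 * c)) * u ≤ (2 * (p : ℝ) ^ (-(6 * c))) * u := by linarith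
  have g6 := le_of_mul_le_mul_right g5 hUc
  have g7 : (p : ℝ) ^ (-(3 * c)) = (p : ℝ) ^ (3 * c) * (p : ℝ) ^ (-(6 * c)) := by
    rw [← Real.rpow_add hp0]
    congr 1
    ring
  rw [g7] at g6
  have g8 := le_of_mul_le_mul_right g6 (by positivity)
  have g9 : (p : ℝ) ^ c ≤ (p : ℝ) ^ (3 * c) := hmono _ _ (by linarith)
  linarith

end Pool.Agent.H424.AF
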