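import Pool.Agent.H424.AF.Count

/-! # A small set that is nearly invariant under dilations or translations, and a set of almost
`p ^ (1 / 2)` elements that is nearly invariant under affine maps -/

set_option autoImplicit false

namespace Pool.Agent.H424.AF

open Finset Pool.Agent.Y881.PG Pool.Agent.Y881.SP Pool.Agent.H435R3.Paley
open scoped Pointwise

open Classical in
theorem img_ge {p : ℕ} [Fact p.Prime] (S : Finset (ZMod p × ZMod p)) (hne : S.Nonempty)
    (hS0 : ∀ σ ∈ S, σ.1 ≠ 0) (U : Finset (ZMod p)) : (U.card : ℝ) ≤ (img S U).card := by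
  obtain ⟨σ, hσ⟩ := hne
  have h1 : U.card ≤ (img S U).card := by
    refine card_le_card_of_injOn (fun u => σ.1 * u + σ.2) ?_ ?_
    · intro u hu
      exact mem_coe.2 (mem_image.2 ⟨(σ, u), mem_product.2 ⟨hσ, hu⟩, rfl⟩)
    · intro u _ u' _ h
      exact mul_left_cancel₀ (hS0 σ hσ) (add_right_cancel h)
  exact_mod_cast h1

theorem img_mono {p : ℕ} {S S' : Finset (ZMod p × ZMod p)} (h : S ⊆ S') (U : Finset (ZMod p)) :
    (img S U).card ≤ (img S' U).card :=
  card_le_card (image_subset_image (product_subset_product_left h))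

open Classical in
/-- quotients -/
theorem count_dil (ε : ℝ) (hε : 0 < ε) : ∃ c : ℝ, 0 < c ∧ ∃ p₀ : ℕ, ∀ (p : ℕ) [Fact p.Prime],
    p₀ ≤ p → ∀ (U T Z : Finset (ZMod p)) (S : Finset (ZMod p × ZMod p)),
      (0 : ZMod p) ∉ T → S.Nonempty → (∀ σ ∈ S, σ.1 ≠ 0) →
      (∀ x, ((S.filter fun σ => σ.2 = x).card : ℝ) ≤ (p : ℝ) ^ (-ε) * S.card) →
      (p : ℝ) ^ ε ≤ T.card → (p : ℝ) ^ (1 / 2 - c) ≤ U.card →
      (Z.card : ℝ) ≤ (p : ℝ) ^ (1 / 2 + c) → ((img S U).card : ℝ) ≤ (p : ℝ) ^ c * U.card →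
      (((U ×ˢ T).filter fun q => q.1 / q.2 ∈ Z).card : ℝ) ≤ (p : ℝ) ^ (-c) * (U.card * T.card) := by
  obtain ⟨c₁, hc₁, p₁, h₁⟩ := count_same (ε / 2) (by positivity)
  obtain ⟨c₂, hc₂, p₂, h₂⟩ := count_different (ε / 2) (by positivity)
  refine ⟨min c₁ c₂, lt_min hc₁ hc₂, p₁ + p₂,
    fun p _ hp U T Z S hT0 hSne hS0 hSm hT hU hZ hSU => ?_⟩
  have hp1 : (1 : ℝ) ≤ p := by exact_mod_cast (Fact.out : p.Prime).one_le
  have hp0 : (0 : ℝ) < p := by linarith
  have hmono : ∀ x y : ℝ, x ≤ y → (p : ℝ) ^ x ≤ (p : ℝ) ^ y := fun x y h =>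
    Real.rpow_le_rpow_of_exponent_le hp1 h
  have m1 : min c₁ c₂ ≤ c₁ := min_le_left _ _
  have m2 : min c₁ c₂ ≤ c₂ := min_le_right _ _
  have hTh : (p : ℝ) ^ (ε / 2) ≤ T.card := (hmono _ _ (by linarith)).trans hT
  have hSc : (0 : ℝ) < S.card := by exact_mod_cast hSne.card_pos
  have hSge : (p : ℝ) ^ ε ≤ S.card := by
    obtain ⟨σ, hσ⟩ := hSne
    have h3 := hSm σ.2
    have h4 : (1 : ℝ) ≤ ((S.filter fun σ' => σ'.2 = σ.2).card : ℝ) := by
      have : 0 < (S.filter fun σ' => σ'.2 = σ.2).card := card_pos.2 ⟨σ, mem_filter.2 ⟨hσ, rfl⟩⟩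
      exact_mod_cast this
    have h5 : (1 : ℝ) ≤ (p : ℝ) ^ (-ε) * S.card := h4.trans h3
    calc (p : ℝ) ^ ε = (p : ℝ) ^ ε * 1 := (mul_one _).symm
      _ ≤ (p : ℝ) ^ ε * ((p : ℝ) ^ (-ε) * S.card) := mul_le_mul_of_nonneg_left h5 (by positivity)
      _ = S.card := by
          rw [← mul_assoc, ← Real.rpow_add hp0, add_neg_cancel, Real.rpow_zero, one_mul]
  by_cases hcase : ∀ x, ((S.filter fun σ => σ.1 = x).card : ℝ) ≤ (p : ℝ) ^ (-(ε / 2)) * S.card
  · refine (h₂ p (by omega) U T Z S hT0 hSne hS0 hcase (fun x => (hSm x).trans ?_) hTh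
      ((hmono _ _ (by linarith)).trans hU) (hZ.trans (hmono _ _ (by linarith))) (hSU.trans ?_)).trans ?_
    · exact mul_le_mul_of_nonneg_right (hmono _ _ (by linarith)) (Nat.cast_nonneg _)
    · exact mul_le_mul_of_nonneg_right (hmono _ _ m2) (Nat.cast_nonneg _)
    · exact mul_le_mul_of_nonneg_right (hmono _ _ (by linarith)) (by positivity)
  · push Not at hcase
    obtain ⟨l, hl⟩ := hcase
    set S0 := S.filter fun σ => σ.1 = l with hS0d
    have hS0ge : (p : ℝ) ^ (ε / 2) ≤ S0.card := by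
      refine le_trans ?_ hl.le
      calc (p : ℝ) ^ (ε / 2) = (p : ℝ) ^ (-(ε / 2)) * (p : ℝ) ^ ε := by
            rw [← Real.rpow_add hp0]
            congr 1
            ring
        _ ≤ _ := mul_le_mul_of_nonneg_left hSge (by positivity)
    have hS0ne : S0.Nonempty := by
      rw [← card_pos]
      have : (0 : ℝ) < S0.card := lt_of_lt_of_le (by positivity) hS0ge
      exact_mod_cast this
    have hl0 : l ≠ 0 := by
      obtain ⟨σ, hσ⟩ := hS0ne
      rw [hS0d, mem_filter] at hσ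
      rw [← hσ.2]
      exact hS0 _ hσ.1
    refine (h₁ p (by omega) U T Z S0 l hT0 hl0 (fun σ hσ => (mem_filter.1 hσ).2) hS0ge hTh
      ((hmono _ _ (by linarith)).trans hU) (hZ.trans (hmono _ _ (by linarith))) ?_).trans ?_
    · have h3 : ((img S0 U).card : ℝ) ≤ (img S U).card := by
        exact_mod_cast img_mono (filter_subset _ _) U
      refine (h3.trans hSU).trans ?_
      exact mul_le_mul_of_nonneg_right (hmono _ _ m1) (Nat.cast_nonneg _)
    · exact mul_le_mul_of_nonneg_right (hmono _ _ (by linarith)) (by positivity)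

open Classical in
/-- sums -/
theorem count_tr (ε : ℝ) (hε : 0 < ε) : ∃ c : ℝ, 0 < c ∧ ∃ p₀ : ℕ, ∀ (p : ℕ) [Fact p.Prime],
    p₀ ≤ p → ∀ (U T Z : Finset (ZMod p)) (S : Finset (ZMod p × ZMod p)),
      S.Nonempty → (∀ σ ∈ S, σ.1 ≠ 0) →
      (∀ x, ((S.filter fun σ => σ.1 = x).card : ℝ) ≤ (p : ℝ) ^ (-ε) * S.card) →
      (p : ℝ) ^ ε ≤ T.card → (p : ℝ) ^ (1 / 2 - c) ≤ U.card →
      (Z.card : ℝ) ≤ (p : ℝ) ^ (1 / 2 + c) → ((img S U).card : ℝ) ≤ (p : ℝ) ^ c * U.card →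
      (((U ×ˢ T).filter fun q => q.1 + q.2 ∈ Z).card : ℝ) ≤ (p : ℝ) ^ (-c) * (U.card * T.card) := by
  obtain ⟨e, he⟩ : ∃ e : ℝ, e = min ε (1 / 4) := ⟨_, rfl⟩
  have he0 : 0 < e := by rw [he]; positivity
  have he1 : e ≤ ε := by rw [he]; exact min_le_left _ _
  have he2 : e ≤ 1 / 4 := by rw [he]; exact min_le_right _ _
  obtain ⟨c₁, hc₁, p₁, hcount⟩ := count_gen e he0
  obtain ⟨c, hc⟩ : ∃ c : ℝ, c = min (c₁ / 2) (1 / 12) := ⟨_, rfl⟩
  have hc0 : 0 < c := by rw [hc]; positivity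
  have hc1 : c ≤ c₁ / 2 := by rw [hc]; exact min_le_left _ _
  have hc2 : c ≤ 1 / 12 := by rw [hc]; exact min_le_right _ _
  refine ⟨c, hc0, p₁, fun p _ hp U T Z S hSne hS0 hSl hT hU hZ hSU => ?_⟩
  have hp1 : (1 : ℝ) ≤ p := by exact_mod_cast (Fact.out : p.Prime).one_le
  have hp0 : (0 : ℝ) < p := by linarith
  have hmono : ∀ x y : ℝ, x ≤ y → (p : ℝ) ^ x ≤ (p : ℝ) ^ y := fun x y h =>
    Real.rpow_le_rpow_of_exponent_le hp1 h
  have hSc : (0 : ℝ) < S.card := by exact_mod_cast hSne.card_pos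
  have hTc : (0 : ℝ) < T.card := lt_of_lt_of_le (by positivity) hT
  set W := img S U with hW
  have hUW : (U.card : ℝ) ≤ W.card := img_ge S hSne hS0 U
  rcases le_total (W.card : ℝ) ((p : ℝ) ^ (1 - e)) with hs | hs
  · set A : ZMod p × ZMod p → Finset (ZMod p) := fun σ => T.image fun t => σ.1 * t - σ.2 with hA
    have hAc : ∀ σ ∈ S, (A σ).card = T.card := by
      intro σ hσ
      refine card_image_of_injective _ fun a b h => ?_
      exact mul_left_cancel₀ (hS0 σ hσ) (sub_left_injective h)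
    have hcnt := hcount p hp S (fun σ => σ.1) A W Z hS0
      (fun x => (hSl x).trans (mul_le_mul_of_nonneg_right (hmono _ _ (by linarith))
        (Nat.cast_nonneg _)))
      (fun i hi => by rw [hAc i hi]; exact (hmono _ _ (by linarith)).trans hT) hs (by
        calc (Z.card : ℝ) ≤ (p : ℝ) ^ (1 / 2 + c) := hZ
          _ ≤ (p : ℝ) ^ (c₁ + (1 / 2 - c)) := hmono _ _ (by linarith)
          _ = (p : ℝ) ^ c₁ * (p : ℝ) ^ (1 / 2 - c) := Real.rpow_add hp0 _ _
          _ ≤ _ := mul_le_mul_of_nonneg_left (hU.trans hUW) (by positivity))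
    have htr := triples S hS0 U T fun u t => u + t ∈ Z
    have hle : (((W ×ˢ (S ×ˢ T)).filter fun q => (q.1 - q.2.1.2) / q.2.1.1 + q.2.2 ∈ Z).card : ℝ) ≤
        T.card * ∑ i ∈ S, ∑ s ∈ W, prop (A i) Z i.1 s := by
      have h1 : (((W ×ˢ (S ×ˢ T)).filter
          fun q => (q.1 - q.2.1.2) / q.2.1.1 + q.2.2 ∈ Z).card : ℝ) =
          ∑ i ∈ S, ∑ s ∈ W, ((T.filter fun t => (s - i.2) / i.1 + t ∈ Z).card : ℝ) := by
        simp only [card_filter, Nat.cast_sum]
        rw [Finset.sum_product]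
        simp only [Finset.sum_product]
        exact sum_comm
      rw [h1, mul_sum]
      refine sum_le_sum fun i hi => ?_
      rw [mul_sum]
      refine sum_le_sum fun s _ => ?_
      unfold prop
      rw [hAc i hi, mul_div_cancel₀ _ hTc.ne']
      have h2 : (T.filter fun t => (s - i.2) / i.1 + t ∈ Z).card ≤
          ((A i).filter fun a => (a + s) / i.1 ∈ Z).card := by
        refine card_le_card_of_injOn (fun t => i.1 * t - i.2) ?_ ?_
        · intro t ht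
          rw [mem_coe, mem_filter] at ht
          rw [mem_coe, mem_filter]
          refine ⟨mem_image.2 ⟨t, ht.1, rfl⟩, ?_⟩
          have e1 : (i.1 * t - i.2 + s) / i.1 = (s - i.2) / i.1 + t := by
            have := hS0 i hi
            field_simp
            ring
          rw [e1]
          exact ht.2
        · intro t _ t' _ h
          exact mul_left_cancel₀ (hS0 i hi) (sub_left_injective h)
      exact_mod_cast h2
    have h1 : (S.card : ℝ) * ((U ×ˢ T).filter fun q => q.1 + q.2 ∈ Z).card ≤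
        T.card * ((p : ℝ) ^ (-c₁) * (W.card * S.card)) := by
      refine le_trans ?_ (hle.trans (mul_le_mul_of_nonneg_left hcnt hTc.le))
      exact_mod_cast htr
    have h2 : (S.card : ℝ) * ((U ×ˢ T).filter fun q => q.1 + q.2 ∈ Z).card ≤
        S.card * ((p : ℝ) ^ (-c) * (U.card * T.card)) := by
      calc _ ≤ (T.card : ℝ) * ((p : ℝ) ^ (-c₁) * (W.card * S.card)) := h1
        _ ≤ (T.card : ℝ) * ((p : ℝ) ^ (-c₁) * (((p : ℝ) ^ c * U.card) * S.card)) := by gcongr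
        _ = S.card * (((p : ℝ) ^ (-c₁) * (p : ℝ) ^ c) * (U.card * T.card)) := by ring
        _ ≤ S.card * ((p : ℝ) ^ (-c) * (U.card * T.card)) := by
            refine mul_le_mul_of_nonneg_left ?_ hSc.le
            refine mul_le_mul_of_nonneg_right ?_ (by positivity)
            rw [← Real.rpow_add hp0]
            exact hmono _ _ (by linarith)
    exact le_of_mul_le_mul_left h2 hSc
  · -- large image
    have h1 : (((U ×ˢ T).filter fun q => q.1 + q.2 ∈ Z).card : ℝ) ≤ Z.card * T.card := by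
      have h2 : ((U ×ˢ T).filter fun q => q.1 + q.2 ∈ Z).card ≤ (Z ×ˢ T).card := by
        refine card_le_card_of_injOn (fun q => (q.1 + q.2, q.2)) ?_ ?_
        · intro q hq
          rw [mem_coe, mem_filter, mem_product] at hq
          exact mem_coe.2 (mem_product.2 ⟨hq.2, hq.1.2⟩)
        · intro q _ q' _ h
          simp only [Prod.mk.injEq] at h
          have h3 := h.1
          rw [h.2] at h3
          exact Prod.ext (add_right_cancel h3) h.2
      rw [card_product] at h2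
      exact_mod_cast h2
    refine h1.trans ?_
    have h2 : (Z.card : ℝ) ≤ (p : ℝ) ^ (-c) * U.card := by
      have h3 : (p : ℝ) ^ (-c) * W.card ≤ U.card := by
        calc (p : ℝ) ^ (-c) * W.card ≤ (p : ℝ) ^ (-c) * ((p : ℝ) ^ c * U.card) :=
              mul_le_mul_of_nonneg_left hSU (by positivity)
          _ = U.card := by
              rw [← mul_assoc, ← Real.rpow_add hp0, neg_add_cancel, Real.rpow_zero, one_mul]
      calc (Z.card : ℝ) ≤ (p : ℝ) ^ (1 / 2 + c) := hZ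
        _ ≤ (p : ℝ) ^ (-c + (-c + (1 - e))) := hmono _ _ (by linarith)
        _ = (p : ℝ) ^ (-c) * ((p : ℝ) ^ (-c) * (p : ℝ) ^ (1 - e)) := by
            rw [Real.rpow_add hp0, Real.rpow_add hp0]
        _ ≤ (p : ℝ) ^ (-c) * ((p : ℝ) ^ (-c) * W.card) := by gcongr
        _ ≤ _ := mul_le_mul_of_nonneg_left h3 (by positivity)
    calc (Z.card : ℝ) * T.card ≤ ((p : ℝ) ^ (-c) * U.card) * T.card :=
          mul_le_mul_of_nonneg_right h2 hTc.le
      _ = _ := by ring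

open Classical in
/-- strict near invariance of `V` and few solutions of `ψ t u ∈ Z` -/
theorem strict (ε c : ℝ) (hε : 0 < ε) (hc0 : 0 < c) : ∃ δ : ℝ, 0 < δ ∧ ∃ p₀ : ℕ,
    ∀ (p : ℕ) [Fact p.Prime], p₀ ≤ p → ∀ χ : DirichletCharacter ℂ p, χ ≠ 1 →
    ∀ (U V T : Finset (ZMod p)) (φ ψ : ZMod p → ZMod p → ZMod p), (p : ℝ) ^ ε ≤ V.card →
      T.Nonempty → U.Nonempty →
      (∀ t ∈ T, Function.Injective (φ t) ∧ (∀ u, ‖∑ v ∈ V, χ (u + φ t v)‖ =
        ‖∑ v ∈ V, χ (ψ t u + v)‖) ∧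
        ((V \ (V.image (φ t))).card : ℝ) ≤ (p : ℝ) ^ (-ε) * V.card) →
      (∀ Z : Finset (ZMod p), (Z.card : ℝ) ≤ (p : ℝ) ^ (1 / 2 + c) →
        (((U ×ˢ T).filter fun q => ψ q.2 q.1 ∈ Z).card : ℝ) ≤ (p : ℝ) ^ (-c) * (U.card * T.card)) →
      ∑ u ∈ U, ‖∑ v ∈ V, χ (u + v)‖ ≤ (p : ℝ) ^ (-δ) * (U.card * V.card) := by
  obtain ⟨d, hd, p₂, hLV⟩ := LV ε c hε hc0
  obtain ⟨δ, hδ⟩ : ∃ δ : ℝ, δ = min (min c d) ε / 4 := ⟨_, rfl⟩
  have hδ0 : 0 < δ := by rw [hδ]; positivity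
  have hδ1 : 4 * δ ≤ c := by rw [hδ]; linarith [min_le_left (min c d) ε, min_le_left c d]
  have hδ2 : 4 * δ ≤ d := by rw [hδ]; linarith [min_le_left (min c d) ε, min_le_right c d]
  have hδ3 : 4 * δ ≤ ε := by rw [hδ]; linarith [min_le_right (min c d) ε]
  obtain ⟨p₃, hp₃2, hp₃⟩ := exists_large 8 δ hδ0
  refine ⟨δ, hδ0, p₂ + p₃, fun p _ hp χ hχ U V T φ ψ hV hTne hUne hVT hcount => ?_⟩
  have hp1 : (1 : ℝ) ≤ p := by exact_mod_cast (Fact.out : p.Prime).one_le
  have hp0 : (0 : ℝ) < p := by linarith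
  have hmono : ∀ x y : ℝ, x ≤ y → (p : ℝ) ^ x ≤ (p : ℝ) ^ y := fun x y h =>
    Real.rpow_le_rpow_of_exponent_le hp1 h
  have h8 : 8 ≤ (p : ℝ) ^ δ := hp₃ p (by omega)
  have hVc : (0 : ℝ) < V.card := lt_of_lt_of_le (by positivity) hV
  have hTc : (0 : ℝ) < T.card := by exact_mod_cast hTne.card_pos
  have hUc : (0 : ℝ) < U.card := by exact_mod_cast hUne.card_pos
  by_contra hcon
  have hcon := not_le.1 hcon
  set F : ZMod p → ℝ := fun z => ‖∑ v ∈ V, χ (z + v)‖ with hF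
  have hFV : ∀ z, F z ≤ V.card := fun z => by
    refine (norm_sum_le _ _).trans ?_
    exact (sum_le_card_nsmul _ _ 1 fun b _ => χ.norm_le_one _).trans (by simp)
  set Z := univ.filter fun z : ZMod p => (p : ℝ) ^ (-d) * V.card <
    ‖∑ b ∈ V, 1 * χ (z + b)‖ with hZ
  have hZc := hLV p (by omega) χ hχ V (fun _ => 1) hV (fun _ => by simp)
  rw [← hZ] at hZc
  set θ : ℝ := (p : ℝ) ^ (-δ) * V.card / 2 with hθ
  set U' := U.filter fun u => θ < F u with hU'
  have hU'c : (p : ℝ) ^ (-δ) * U.card < 2 * U'.card := by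
    have h1 : ∑ u ∈ U, F u ≤ U'.card * V.card + U.card * θ := by
      rw [← sum_filter_add_sum_filter_not U (fun u => θ < F u)]
      refine add_le_add ?_ ?_
      · rw [← nsmul_eq_mul]
        exact sum_le_card_nsmul _ _ _ fun u _ => hFV u
      · refine (sum_le_card_nsmul _ _ θ fun u hu => not_lt.1 (mem_filter.1 hu).2).trans ?_
        rw [nsmul_eq_mul]
        refine mul_le_mul_of_nonneg_right ?_ (by positivity)
        exact_mod_cast card_filter_le U _
    have h2 : ((p : ℝ) ^ (-δ) * U.card) * V.card < (2 * U'.card) * V.card := by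
      rw [hθ] at h1
      nlinarith
    exact lt_of_mul_lt_mul_right h2 hVc.le
  -- near invariance of the large values
  have hinv : ∀ u ∈ U', ∀ t ∈ T, ψ t u ∈ Z := by
    intro u hu t ht
    obtain ⟨hinj, hnorm, htV⟩ := hVT t ht
    have h1 := (mem_filter.1 hu).2
    refine mem_filter.2 ⟨mem_univ _, ?_⟩
    have e2 : ‖∑ b ∈ V, 1 * χ (ψ t u + b)‖ = ‖∑ w ∈ V.image (φ t), χ (u + w)‖ := by
      simp only [one_mul]
      rw [← hnorm u, sum_image (fun a _ b _ h => hinj h)]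
    rw [e2]
    set V' := V.image (φ t) with hV'
    have hcard : V'.card = V.card := card_image_of_injective _ hinj
    have e3 : ∑ v ∈ V, χ (u + v) + ∑ v ∈ V' \ V, χ (u + v) =
        ∑ w ∈ V', χ (u + w) + ∑ v ∈ V \ V', χ (u + v) := by
      have g1 := sum_sdiff (inter_subset_left : V ∩ V' ⊆ V) (f := fun v => χ (u + v))
      have g2 := sum_sdiff (inter_subset_right : V ∩ V' ⊆ V') (f := fun v => χ (u + v))
      rw [sdiff_inter_self_left] at g1
      rw [sdiff_inter_self_right] at g2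
      rw [← g1, ← g2]
      ring
    have hsd : (V' \ V).card = (V \ V').card := by
      have g1 := card_sdiff_add_card_inter V V'
      have g2 := card_sdiff_add_card_inter V' V
      rw [inter_comm] at g2
      omega
    have hbd : ∀ W : Finset (ZMod p), ‖∑ v ∈ W, χ (u + v)‖ ≤ W.card := fun W => by
      refine (norm_sum_le _ _).trans ?_
      exact (sum_le_card_nsmul _ _ 1 fun b _ => χ.norm_le_one _).trans (by simp)
    have h3 : F u ≤ ‖∑ w ∈ V', χ (u + w)‖ + 2 * ((V \ V').card : ℝ) := by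
      have e4 : ∑ v ∈ V, χ (u + v) = ∑ w ∈ V', χ (u + w) + ∑ v ∈ V \ V', χ (u + v) -
          ∑ v ∈ V' \ V, χ (u + v) := eq_sub_of_add_eq e3
      have g1 : F u = ‖∑ w ∈ V', χ (u + w) + ∑ v ∈ V \ V', χ (u + v) -
          ∑ v ∈ V' \ V, χ (u + v)‖ := by rw [← e4]
      rw [g1]
      refine (norm_sub_le _ _).trans ?_
      have g2 := norm_add_le (∑ w ∈ V', χ (u + w)) (∑ v ∈ V \ V', χ (u + v))
      have g3 := hbd (V \ V')
      have g4 := hbd (V' \ V)
      rw [hsd] at g4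
      linarith
    -- numbers
    have h4 : (p : ℝ) ^ (-d) * V.card + 2 * ((p : ℝ) ^ (-ε) * V.card) ≤ θ := by
      have g1 : (p : ℝ) ^ (-d) ≤ (p : ℝ) ^ (-(4 * δ)) := hmono _ _ (by linarith)
      have g2 : (p : ℝ) ^ (-ε) ≤ (p : ℝ) ^ (-(4 * δ)) := hmono _ _ (by linarith)
      have g3 : 6 * (p : ℝ) ^ (-(4 * δ)) ≤ (p : ℝ) ^ (-δ) := by
        calc 6 * (p : ℝ) ^ (-(4 * δ)) ≤ (p : ℝ) ^ δ * (p : ℝ) ^ (-(4 * δ)) :=
              mul_le_mul_of_nonneg_right (by linarith) (by positivity)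
          _ = (p : ℝ) ^ (-(3 * δ)) := by
              rw [← Real.rpow_add hp0]
              congr 1
              ring
          _ ≤ _ := hmono _ _ (by linarith)
      have g4 : ((p : ℝ) ^ (-d) + 2 * (p : ℝ) ^ (-ε)) * V.card ≤
          ((p : ℝ) ^ (-δ) / 2) * V.card :=
        mul_le_mul_of_nonneg_right (by linarith) hVc.le
      rw [hθ]
      linarith
    linarith
  -- the count
  have hcnt := hcount Z hZc
  have hlow : (U'.card : ℝ) * T.card ≤ (((U ×ˢ T).filter fun q => ψ q.2 q.1 ∈ Z).card : ℝ) := by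
    have h1 : (U' ×ˢ T).card ≤ ((U ×ˢ T).filter fun q => ψ q.2 q.1 ∈ Z).card := by
      refine card_le_card fun q hq => ?_
      rw [mem_product] at hq
      exact mem_filter.2 ⟨mem_product.2 ⟨(mem_filter.1 hq.1).1, hq.2⟩, hinv _ hq.1 _ hq.2⟩
    rw [card_product] at h1
    exact_mod_cast h1
  have h1 : (U'.card : ℝ) ≤ (p : ℝ) ^ (-c) * U.card := by
    have h2 : (U'.card : ℝ) * T.card ≤ ((p : ℝ) ^ (-c) * U.card) * T.card := by
      refine (hlow.trans hcnt).trans (le_of_eq ?_)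
      ring
    exact le_of_mul_le_mul_right h2 hTc
  have h2 : (p : ℝ) ^ (-δ) * U.card < (2 * (p : ℝ) ^ (-c)) * U.card := by linarith
  have h3 := lt_of_mul_lt_mul_right h2 hUc.le
  have h6 : 2 * (p : ℝ) ^ (-c) ≤ (p : ℝ) ^ (-δ) := by
    calc 2 * (p : ℝ) ^ (-c) ≤ 2 * (p : ℝ) ^ (-(2 * δ)) := by
          have := hmono (-c) (-(2 * δ)) (by linarith)
          linarith
      _ ≤ (p : ℝ) ^ δ * (p : ℝ) ^ (-(2 * δ)) := mul_le_mul_of_nonneg_right (by linarith) (by positivity)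
      _ = _ := by
          rw [← Real.rpow_add hp0]
          congr 1
          ring
  linarith

/-- one set nearly invariant under many dilations, the other one under many affine maps -/
theorem dilations (ε : ℝ) (hε : 0 < ε) : ∃ c : ℝ, 0 < c ∧ ∃ δ : ℝ, 0 < δ ∧ ∃ p₀ : ℕ,
    ∀ (p : ℕ) [Fact p.Prime], p₀ ≤ p → ∀ χ : DirichletCharacter ℂ p, χ ≠ 1 →
    ∀ (U V T : Finset (ZMod p)) (S : Finset (ZMod p × ZMod p)),
      (p : ℝ) ^ (1 / 2 - c) ≤ U.card → (p : ℝ) ^ ε ≤ V.card → (p : ℝ) ^ ε ≤ T.card →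
      S.Nonempty → (∀ σ ∈ S, σ.1 ≠ 0) →
      (∀ x, ((S.filter fun σ => σ.2 = x).card : ℝ) ≤ (p : ℝ) ^ (-ε) * S.card) →
      ((img S U).card : ℝ) ≤ (p : ℝ) ^ c * U.card →
      (∀ t ∈ T, t ≠ 0 ∧ ((V \ V.image fun v => t * v).card : ℝ) ≤ (p : ℝ) ^ (-ε) * V.card) →
      ∑ u ∈ U, ‖∑ v ∈ V, χ (u + v)‖ ≤ (p : ℝ) ^ (-δ) * (U.card * V.card) := by
  classical
  obtain ⟨c, hc, p₁, h1⟩ := count_dil ε hε
  obtain ⟨δ, hδ, p₂, h2⟩ := strict ε c hε hc
  refine ⟨c, hc, δ, hδ, p₁ + p₂, fun p _ hp χ hχ U V T S hU hV hT hSne hS0 hSm hSU hVT => ?_⟩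
  have hp1 : (1 : ℝ) ≤ p := by exact_mod_cast (Fact.out : p.Prime).one_le
  have hp0 : (0 : ℝ) < p := by linarith
  have hTne : T.Nonempty := by
    rw [← card_pos]
    have : (0 : ℝ) < T.card := lt_of_lt_of_le (by positivity) hT
    exact_mod_cast this
  have hUne : U.Nonempty := by
    rw [← card_pos]
    have : (0 : ℝ) < U.card := lt_of_lt_of_le (by positivity) hU
    exact_mod_cast this
  have hT0 : (0 : ZMod p) ∉ T := fun h => (hVT 0 h).1 rfl
  refine h2 p (by omega) χ hχ U V T (fun t v => t * v) (fun t u => u / t) hV hTne hUne ?_ ?_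
  · intro t ht
    obtain ⟨ht0, htV⟩ := hVT t ht
    refine ⟨fun a b h => mul_left_cancel₀ ht0 h, fun u => ?_, by convert htV⟩
    have e1 : ∑ v ∈ V, χ (u + t * v) = χ t * ∑ v ∈ V, χ (u / t + v) := by
      rw [mul_sum]
      refine sum_congr rfl fun v _ => ?_
      rw [← map_mul]
      congr 1
      field_simp
    rw [e1, norm_mul, norm_unit χ ht0, one_mul]
  · intro Z hZ
    have := h1 p (by omega) U T Z S hT0 hSne hS0 hSm hT hU hZ hSU
    convert this

/-- one set nearly invariant under many translations, the other one under many affine maps -/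
theorem translations (ε : ℝ) (hε : 0 < ε) : ∃ c : ℝ, 0 < c ∧ ∃ δ : ℝ, 0 < δ ∧ ∃ p₀ : ℕ,
    ∀ (p : ℕ) [Fact p.Prime], p₀ ≤ p → ∀ χ : DirichletCharacter ℂ p, χ ≠ 1 →
    ∀ (U V T : Finset (ZMod p)) (S : Finset (ZMod p × ZMod p)),
      (p : ℝ) ^ (1 / 2 - c) ≤ U.card → (p : ℝ) ^ ε ≤ V.card → (p : ℝ) ^ ε ≤ T.card →
      S.Nonempty → (∀ σ ∈ S, σ.1 ≠ 0) →
      (∀ x, ((S.filter fun σ => σ.1 = x).card : ℝ) ≤ (p : ℝ) ^ (-ε) * S.card) →
      ((img S U).card : ℝ) ≤ (p : ℝ) ^ c * U.card →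
      (∀ t ∈ T, ((V \ V.image fun v => t + v).card : ℝ) ≤ (p : ℝ) ^ (-ε) * V.card) →
      ∑ u ∈ U, ‖∑ v ∈ V, χ (u + v)‖ ≤ (p : ℝ) ^ (-δ) * (U.card * V.card) := by
  classical
  obtain ⟨c, hc, p₁, h1⟩ := count_tr ε hε
  obtain ⟨δ, hδ, p₂, h2⟩ := strict ε c hε hc
  refine ⟨c, hc, δ, hδ, p₁ + p₂, fun p _ hp χ hχ U V T S hU hV hT hSne hS0 hSl hSU hVT => ?_⟩
  have hp1 : (1 : ℝ) ≤ p := by exact_mod_cast (Fact.out : p.Prime).one_le
  have hp0 : (0 : ℝ) < p := by linarith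
  have hTne : T.Nonempty := by
    rw [← card_pos]
    have : (0 : ℝ) < T.card := lt_of_lt_of_le (by positivity) hT
    exact_mod_cast this
  have hUne : U.Nonempty := by
    rw [← card_pos]
    have : (0 : ℝ) < U.card := lt_of_lt_of_le (by positivity) hU
    exact_mod_cast this
  refine h2 p (by omega) χ hχ U V T (fun t v => t + v) (fun t u => u + t) hV hTne hUne ?_ ?_
  · intro t ht
    refine ⟨fun a b h => add_left_cancel h, fun u => ?_, by convert hVT t ht⟩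
    simp only [add_assoc]
  · intro Z hZ
    have := h1 p (by omega) U T Z S hSne hS0 hSl hT hU hZ hSU
    convert this

end Pool.Agent.H424.AF
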